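import Pool.Agent.MHP.Stmts

/-! # MHP row FAM: the graph of the pieces -/

set_option autoImplicit false

namespace Pool.Agent.MHP.H7

open Pool.Agent.HMT Pool.Agent.MHP

section
variable {Q : Type} (C : Q → PG)

/-- the vertices of the pieces -/
abbrev FU : Type := Unit ⊕ Σ q, (C q).V

/-- the pieces in the disjoint union -/
def femb (q : Q) : (C q).V ↪ FU C where
  toFun v := Sum.inr ⟨q, v⟩
  inj' a b h := by
    have h1 := Sum.inr_injective h
    exact eq_of_heq (Sigma.mk.inj h1).2

/-- the disjoint union -/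
def FH : SimpleGraph (FU C) := ⨆ q, (C q).G.map (femb C q)

/-- the hubs -/
def frho : Option Q → FU C
  | none => Sum.inl ()
  | some q => Sum.inr ⟨q, (C q).r⟩

/-- the index of a vertex -/
def fidx : FU C → Option Q
  | Sum.inl _ => none
  | Sum.inr x => some x.1

theorem FH_adj (x y : FU C) : (FH C).Adj x y ↔
    ∃ q a b, (C q).G.Adj a b ∧ Sum.inr ⟨q, a⟩ = x ∧ Sum.inr ⟨q, b⟩ = y := by
  rw [FH, SimpleGraph.iSup_adj]
  constructor
  · rintro ⟨q, h⟩
    rw [SimpleGraph.map_adj] at h
    obtain ⟨a, b, hab, h1, h2⟩ := h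
    exact ⟨q, a, b, hab, h1, h2⟩
  · rintro ⟨q, a, b, hab, h1, h2⟩
    refine ⟨q, ?_⟩
    rw [SimpleGraph.map_adj]
    exact ⟨a, b, hab, h1, h2⟩

theorem FH_adj_inr (q : Q) (a b : (C q).V) :
    (FH C).Adj (Sum.inr ⟨q, a⟩) (Sum.inr ⟨q, b⟩) ↔ (C q).G.Adj a b := by
  rw [FH_adj]
  constructor
  · rintro ⟨q', a', b', hab, h1, h2⟩
    have h1' := Sum.inr_injective h1
    have h2' := Sum.inr_injective h2
    obtain ⟨hq, ha⟩ := Sigma.mk.inj h1'
    subst hq
    have ha' := eq_of_heq ha
    have hb' := eq_of_heq (Sigma.mk.inj h2').2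
    subst ha' hb'
    exact hab
  · intro h
    exact ⟨q, a, b, h, rfl, rfl⟩

theorem FH_inl (v : FU C) : ¬ (FH C).Adj (Sum.inl ()) v := by
  rw [FH_adj]
  rintro ⟨q, a, b, _, h, _⟩
  cases h

theorem fidx_adj {x y : FU C} (h : (FH C).Adj x y) : fidx C x = fidx C y := by
  rw [FH_adj] at h
  obtain ⟨q, a, b, _, rfl, rfl⟩ := h
  rfl

theorem fidx_reach {x y : FU C} (h : (FH C).Reachable x y) : fidx C x = fidx C y := by
  obtain ⟨w⟩ := h
  induction w with
  | nil => rfl
  | cons hadj _ ih => exact (fidx_adj C hadj).trans ih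

theorem fidx_rho (i : Option Q) : fidx C (frho C i) = i := by
  cases i <;> rfl

/-- the embedding of a piece -/
def fhom (q : Q) : (C q).G →g FH C where
  toFun v := Sum.inr ⟨q, v⟩
  map_rel' {a b} h := (FH_adj_inr C q a b).2 h

theorem reach_inr (hC : ∀ q, (C q).G.Connected) (q : Q) (v : (C q).V) :
    (FH C).Reachable (frho C (some q)) (Sum.inr ⟨q, v⟩) :=
  ((hC q).preconnected (C q).r v).map (fhom C q)

theorem reach_iff (hC : ∀ q, (C q).G.Connected) (q : Q) (x : FU C) :
    (FH C).Reachable (frho C (some q)) x ↔ ∃ v, Sum.inr ⟨q, v⟩ = x := by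
  constructor
  · intro h
    have h1 := fidx_reach C h
    rw [fidx_rho] at h1
    cases x with
    | inl u => cases h1
    | inr y =>
      obtain ⟨q', v⟩ := y
      have hq : q = q' := Option.some.inj h1
      subst hq
      exact ⟨v, rfl⟩
  · rintro ⟨v, rfl⟩
    exact reach_inr C hC q v

theorem comp_iso [Finite (FU C)] (hC : ∀ q, (C q).G.Connected) (q : Q) :
    PIso (PG.mk (FU C) (FH C) (frho C (some q))).comp (C q) := by
  let e' : (C q).V ≃ {x : FU C // (FH C).Reachable (frho C (some q)) x} :=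
    Equiv.ofBijective (fun v => ⟨Sum.inr ⟨q, v⟩, reach_inr C hC q v⟩) (by
      constructor
      · intro a b h
        have h1 := Sum.inr_injective (Subtype.mk.inj h)
        exact eq_of_heq (Sigma.mk.inj h1).2
      · rintro ⟨x, hx⟩
        obtain ⟨v, rfl⟩ := (reach_iff C hC q x).1 hx
        exact ⟨v, rfl⟩)
  let φ : (C q).G ≃g (PG.mk (FU C) (FH C) (frho C (some q))).comp.G :=
    { toEquiv := e'
      map_rel_iff' := by
        intro a b
        exact FH_adj_inr C q a b }
  refine ⟨φ.symm, ?_⟩
  rw [RelIso.symm_apply_eq]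
  rfl

theorem spr_of_no_adj (g : ℕ) {V : Type} [Finite V] (G : SimpleGraph V) (h : ∀ a b, ¬ G.Adj a b) :
    Spr g G := by
  right
  refine ⟨⟨SimpleGraph.Coloring.mk (fun _ => 0) fun {a b} hab => absurd hab (h a b)⟩, ?_⟩
  intro X _
  have h1 : (G.induce X).edgeSet = ∅ := by
    ext e
    induction e using Sym2.ind with
    | _ a b =>
      simp only [SimpleGraph.mem_edgeSet, SimpleGraph.comap_adj, Set.mem_empty_iff_false, iff_false]
      exact h _ _
  rw [h1]
  simp

end

theorem fam (h1 : CisStmt) (h2 : SpkStmt) (h3 : SpsStmt) : FamStmt := by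
  classical
  obtain ⟨c1, c2, c3, c4, c5, c6, c7⟩ := h1
  intro n _ E A g hE hex
  let m := {i : n // ¬ PIso (E i).comp A}
  let s : Setoid m := ⟨fun i j => PIso (E i.1).comp (E j.1).comp,
    ⟨fun i => c1 _, fun h => c2 _ _ h, fun h h' => c3 _ _ _ h h'⟩⟩
  let Q := Quotient s
  let C : Q → PG := fun q => (E q.out.1).comp
  have hC : ∀ q, (C q).G.Connected := fun q => c6 _
  have : Finite m := inferInstance
  have : Finite Q := Quotient.finite _
  have : ∀ q, Finite (C q).V := fun q => (C q).fin
  have : Finite (FU C) := inferInstance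
  have hL : ∀ q, PIso (PG.mk (FU C) (FH C) (frho C (some q))).comp (C q) := comp_iso C hC
  refine ⟨Option Q, Fintype.ofFinite _, Classical.decEq _, none, FU C, inferInstance, frho C, FH C,
    ?_, ?_, ?_, ?_, ?_, ?_, ?_, ?_⟩
  · exact FH_inl C
  · intro i k h
    have := fidx_reach C h
    rwa [fidx_rho, fidx_rho] at this
  · intro u
    cases u with
    | inl u => exact ⟨none, SimpleGraph.Reachable.refl _⟩
    | inr x => exact ⟨some x.1, reach_inr C hC x.1 x.2⟩
  · intro i k hi hk h
    cases i with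
    | none => exact absurd rfl hi
    | some q =>
      cases k with
      | none => exact absurd rfl hk
      | some q' =>
        have h4 : PIso (C q) (C q') := c3 _ _ _ (c2 _ _ (hL q)) (c3 _ _ _ h (hL q'))
        have h5 : q.out ≈ q'.out := h4
        have h6 : q = q' := by
          rw [← Quotient.out_eq q, ← Quotient.out_eq q']
          exact Quotient.sound h5
        rw [h6]
  · intro i hi h
    cases i with
    | none => exact absurd rfl hi
    | some q => exact q.out.2 (c3 _ _ _ (c2 _ _ (hL q)) h)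
  · intro e
    by_cases he : PIso (E e).comp A
    · exact Or.inl he
    · right
      let q : Q := Quotient.mk s ⟨e, he⟩
      refine ⟨some q, by simp, ?_⟩
      have h4 : q.out ≈ (⟨e, he⟩ : m) := Quotient.mk_out (s := s) ⟨e, he⟩
      have h5 : PIso (C q) (E e).comp := h4
      exact c2 _ _ (c3 _ _ _ (hL q) h5)
  · obtain ⟨i, hi⟩ := hex
    exact ⟨some (Quotient.mk s ⟨i, hi⟩), by simp⟩
  · apply h2
    intro v
    have hv : ∃ i, (FH C).Reachable (frho C i) v := by
      cases v with
      | inl u => exact ⟨none, SimpleGraph.Reachable.refl _⟩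
      | inr x => exact ⟨some x.1, reach_inr C hC x.1 x.2⟩
    obtain ⟨i, hi⟩ := hv
    have hset : {w | (FH C).Reachable v w} = {w | (FH C).Reachable (frho C i) w} := by
      ext w
      exact ⟨fun h => hi.trans h, fun h => hi.symm.trans h⟩
    have htr : ∀ S T : Set (FU C), S = T → Spr g ((FH C).induce T) → Spr g ((FH C).induce S) := by
      rintro S T rfl h
      exact h
    refine htr _ _ hset ?_
    cases i with
    | none =>
      apply spr_of_no_adj
      rintro ⟨a, ha⟩ ⟨b, hb⟩ hab
      have h4 : fidx C a = none := by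
        have := fidx_reach C ha
        rw [fidx_rho] at this
        exact this.symm
      cases a with
      | inl u =>
        exact FH_inl C b hab
      | inr x => cases h4
    | some q =>
      obtain ⟨φ, _⟩ := hL q
      refine h3.2.2 g _ _ (C q).G _ ⟨φ.symm⟩ ?_
      exact h3.2.1 g _ (E q.out.1).G {v | (E q.out.1).G.Reachable (E q.out.1).r v} (hE _)

end Pool.Agent.MHP.H7
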